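import Mathlib
import Pool.Agent.H39x.LP.Pell
import Pool.Agent.H32x.PL.Ex
import Pool.Agent.H32x.AB.Fin2

set_option autoImplicit false

/-!
# Pell pairs with a random tail: the gaps and the types of consecutive exponents

The solutions of `x ^ 2 - 2 y ^ 2 = -1` are the pairs `(X n, Y n)`, `X n + Y n √2 = (1 + √2) ^ n`, `n`
odd, and `X n` is prime only if `n` is prime. For real `θ` and a real number `κ` with
`(1 + √2) ^ 0.5834 < 2 ^ κ < 1 + √2` we add the same integer `⌊θ 2 ^ ⌊κ p⌋⌋` to `X p` and to `Y p`, so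
that a positive proportion of the leading digits does not change. The exponents of `θ` in a set `S` are
the primes `p` in `S` for which (the `p`-rough part of) the first or the second member is prime, and the
type of the exponent is the member which is prime (for almost every `θ` only finitely many exponents
have both types). Let `V n` be the sum of `log p / p` over the primes `p ≤ n` in `S` and
`c = e ^ γ / log (1 + √2)`.

The heuristic behind the two questions says that the two members are prime independently of each other,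
with the probabilities `c log p / p`. It predicts for the increasing sequence `e 0 < e 1 < ...` of all
exponents in `S` that the gaps `c (V (e (i + 1)) - V (e i))` behave like independent exponential
variables with mean `1 / 2`, and that the types behave like the results of independent tosses of a fair
coin, independent of the gaps. We prove this for almost every `θ`, for every set `S` of infinite weight
whose dyadic pieces have weights tending to zero and in which the pairs `p`, `p + h` have weight zero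
relative to the weight of `S`, for every `h`. In particular the sequence of the types is a normal
sequence.

The `p`-rough parts of `X p` and `Y p` are `X p` and `Y p`: at `θ = 0` we have the two questions.
-/

namespace Pool.Agent.Results.MP_927e73_nt.GapsAndTypes

open Filter Topology MeasureTheory

/-- The pairs `(X n, Y n)` with `X n + Y n √2 = (1 + √2) ^ n`. -/
def XY : ℕ → ℕ × ℕ
  | 0 => (1, 0)
  | n + 1 => ((XY n).1 + 2 * (XY n).2, (XY n).1 + (XY n).2)

/-- The first member of the pair. -/
def X (n : ℕ) : ℕ := (XY n).1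

/-- The second member of the pair. -/
def Y (n : ℕ) : ℕ := (XY n).2

/-- The product, with multiplicity, of the prime factors of `m` that are larger than `p`. -/
def roughPart (p m : ℕ) : ℕ := (m.primeFactorsList.filter (fun r => p < r)).prod

/-- The integer `A p + ⌊θ 2 ^ ⌊κ p⌋⌋` (zero if this is negative). -/
noncomputable def N (A : ℕ → ℕ) (κ θ : ℝ) (p : ℕ) : ℕ := ((A p : ℤ) + ⌊θ * 2 ^ ⌊κ * p⌋₊⌋).toNat

/-- The two sequences. -/
def Z (j : Fin 2) : ℕ → ℕ := if j = 0 then X else Y

/-- The exponents of type `j`: the primes `p` in `S` for which the `p`-rough part of `N (Z j) κ θ p` is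
prime. -/
def E (κ : ℝ) (S : Set ℕ) (θ : ℝ) (j : Fin 2) : Set ℕ :=
  {p | p.Prime ∧ p ∈ S ∧ (roughPart p (N (Z j) κ θ p)).Prime}

/-- The exponents of both types in increasing order. -/
noncomputable def e (κ : ℝ) (S : Set ℕ) (θ : ℝ) (i : ℕ) : ℕ :=
  Nat.nth (fun p => ∃ j, p ∈ E κ S θ j) i

open Classical in
/-- The sum of `log p / p` over the primes `p ≤ n` in the set `S`. -/
noncomputable def V (S : Set ℕ) (n : ℕ) : ℝ :=
  ∑ p ∈ (Finset.range (n + 1)).filter (fun p => p.Prime ∧ p ∈ S), Real.log p / p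

/-- The constant of the law, `e ^ γ / log (1 + √2)`. -/
noncomputable def c : ℝ := Real.exp Real.eulerMascheroniConstant / Real.log (1 + √2)

/-- The gap after the `i`-th exponent, on the scale `c * V S`. -/
noncomputable def gap (κ : ℝ) (S : Set ℕ) (θ : ℝ) (i : ℕ) : ℝ :=
  c * (V S (e κ S θ (i + 1)) - V S (e κ S θ i))

/-- For almost every `θ`: there are infinitely many exponents; `m + 1` consecutive exponents have given
types and the `m` gaps between them lie in given intervals `(u j, v j]` with the frequency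
`2 ^ -(m + 1) * ∏ (e ^ (-2 u j) - e ^ (-2 v j))`; and every word of length `m + 1` occurs in the sequence
of the types with the frequency `2 ^ -(m + 1)`. -/
def Law (κ : ℝ) (S : Set ℕ) : Prop :=
  ∀ᵐ θ : ℝ, {p | ∃ j, p ∈ E κ S θ j}.Infinite ∧
    (∀ (m : ℕ) (w : Fin (m + 1) → Fin 2) (u v : Fin m → ℝ), (∀ j, 0 ≤ u j) → (∀ j, u j ≤ v j) →
      Tendsto (fun n : ℕ => ({i : ℕ | i < n ∧ (∀ j : Fin (m + 1), e κ S θ (i + j) ∈ E κ S θ (w j)) ∧
        ∀ j : Fin m, u j < gap κ S θ (i + j) ∧ gap κ S θ (i + j) ≤ v j}.ncard : ℝ) / n) atTop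
        (𝓝 ((1 / 2) ^ (m + 1) * ∏ j, (Real.exp (-(2 * u j)) - Real.exp (-(2 * v j)))))) ∧
    (∀ (m : ℕ) (w : Fin (m + 1) → Fin 2),
      Tendsto (fun n : ℕ => ({i : ℕ | i < n ∧
        ∀ j : Fin (m + 1), e κ S θ (i + j) ∈ E κ S θ (w j)}.ncard : ℝ) / n) atTop
        (𝓝 ((1 / 2) ^ (m + 1))))

lemma XY_eq : XY = Pool.Agent.H39x.LP.Pell.XY := by
  funext n
  induction n with
  | zero => rfl
  | succ n ih =>
    show ((XY n).1 + 2 * (XY n).2, (XY n).1 + (XY n).2) = _
    rw [ih]
    rfl

lemma X_eq : X = Pool.Agent.H39x.LP.Pell.X := by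
  funext n
  unfold X
  rw [XY_eq]
  rfl

lemma Y_eq : Y = Pool.Agent.H39x.LP.Pell.Y := by
  funext n
  unfold Y
  rw [XY_eq]
  rfl

lemma N_eq (A : ℕ → ℕ) (κ θ : ℝ) : N A κ θ = Pool.Agent.H39x.LP.sq 2 κ (fun p => (A p : ℤ)) θ := by
  funext p
  unfold N Pool.Agent.H39x.LP.sq
  norm_num

lemma rough_self {p m : ℕ} (hm : m ≠ 0) (h : ∀ l : ℕ, l.Prime → l ∣ m → p < l) :
    roughPart p m = m := by
  unfold roughPart
  rw [List.filter_eq_self.2, Nat.prod_primeFactorsList hm]
  intro r hr
  have := h r (Nat.prime_of_mem_primeFactorsList hr) (Nat.dvd_of_mem_primeFactorsList hr)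
  simpa using this

/-- the two sequences -/
def AA (j p : ℕ) : ℤ := if j = 0 then X p else Y p

lemma log_pos' : 0 < Real.log (1 + √2) := by
  have hs : 0 < √2 := by positivity
  exact Real.log_pos (by linarith)

lemma two {κ : ℝ} (h1 : 0.5834 * Real.log (1 + √2) < κ * Real.log 2)
    (h2 : κ * Real.log 2 < Real.log (1 + √2)) :
    Pool.Agent.H32x.AB.TwoZ 2 κ (Real.log (1 + √2)) AA := by
  have hs : 0 < √2 := by positivity
  have hexp : ∀ p : ℕ, Real.exp (Real.log (1 + √2) * p) = (1 + √2) ^ p := by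
    intro p
    rw [mul_comm, Real.exp_nat_mul, Real.exp_log (by linarith)]
  refine ⟨le_rfl, log_pos', by push_cast; exact h1, by push_cast; exact h2, fun j _ => ?_, ?_⟩
  · refine ⟨1 / 4, 1, by norm_num, Eventually.of_forall fun p hp => ?_⟩
    rw [hexp, one_mul]
    unfold AA
    split_ifs
    · rw [X_eq]
      have := Pool.Agent.H39x.LP.Pell.le_X p
      have := Pool.Agent.H39x.LP.Pell.X_le p
      push_cast
      constructor <;> assumption
    · rw [Y_eq]
      have := Pool.Agent.H39x.LP.Pell.le_Y hp.pos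
      have := Pool.Agent.H39x.LP.Pell.Y_le p
      push_cast
      constructor <;> assumption
  · refine Eventually.of_forall fun p hp h => ?_
    have h3 : Y p < X p := by
      rw [X_eq, Y_eq]
      exact Pool.Agent.H39x.LP.Pell.Y_lt_X hp.two_le
    have h4 : (X p : ℤ) = (Y p : ℤ) := h
    omega

lemma AA0 : AA 0 = fun p => (X p : ℤ) := by funext p; unfold AA; rw [if_pos rfl]
lemma AA1 : AA 1 = fun p => (Y p : ℤ) := by funext p; unfold AA; rw [if_neg one_ne_zero]

lemma AA_Z (j : Fin 2) : AA j = fun p => (Z j p : ℤ) := by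
  funext p
  unfold AA Z
  fin_cases j
  · simp
  · simp

lemma E_eq (κ : ℝ) (S : Set ℕ) (θ : ℝ) (j : Fin 2) :
    E κ S θ j = Pool.Agent.H32x.AB.EZ 2 κ (AA j) S θ := by
  unfold E Pool.Agent.H32x.AB.EZ
  rw [AA_Z, ← N_eq]
  rfl

lemma kp_eq : Pool.Agent.H32x.AB.kp (Real.log (1 + √2)) = c := rfl

lemma V_eq (S : Set ℕ) (n : ℕ) : Pool.Agent.N176.OW.VS S n = V S n := rfl

/-- The pairs for odd `n` are solutions, prime values of `X` at odd arguments have prime arguments, and
the `p`-rough parts of `X p` and `Y p` are `X p` and `Y p`. The law holds for every set `S` of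
infinite weight whose dyadic pieces have weights tending to zero and whose pairs at every fixed distance
have relative weight zero; in particular for all primes in the windows `(2 ^ i, (1 + ε i) 2 ^ i]`, if
`ε i → 0` and `∑ ε i = ∞`. -/
theorem result :
    (∀ n : ℕ, (X n : ℝ) + Y n * √2 = (1 + √2) ^ n) ∧
    (∀ n : ℕ, Odd n → X n ^ 2 + 1 = 2 * Y n ^ 2 ∧ ((X n).Prime → n.Prime)) ∧
    (∀ (κ : ℝ) (p : ℕ), p.Prime → p ≠ 2 →
      roughPart p (N X κ 0 p) = X p ∧ roughPart p (N Y κ 0 p) = Y p) ∧
    ∀ κ : ℝ, 0.5834 * Real.log (1 + √2) < κ * Real.log 2 → κ * Real.log 2 < Real.log (1 + √2) →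
      (∀ S : Set ℕ, Tendsto (fun n => V S n) atTop atTop →
        Tendsto (fun n : ℕ => V S (2 * n) - V S n) atTop (𝓝 0) →
        (∀ h : ℕ, 1 ≤ h → Tendsto (fun n =>
          V {p | p ∈ S ∧ p + h ∈ S ∧ (p + h).Prime} n / V S n) atTop (𝓝 0)) →
        Law κ S) ∧
      ∀ ε : ℕ → ℝ, (∀ i, 0 ≤ ε i) → (∀ i, ε i ≤ 1) → Tendsto ε atTop (𝓝 0) → ¬ Summable ε →
        Law κ {p | ∃ i : ℕ, 2 ^ i < p ∧ (p : ℝ) ≤ 2 ^ i * (1 + ε i)} := by
  have hmain : ∀ κ : ℝ, 0.5834 * Real.log (1 + √2) < κ * Real.log 2 →
      κ * Real.log 2 < Real.log (1 + √2) →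
      ∀ S : Set ℕ, Tendsto (fun n => V S n) atTop atTop →
        Tendsto (fun n : ℕ => V S (2 * n) - V S n) atTop (𝓝 0) →
        (∀ h : ℕ, 1 ≤ h → Tendsto (fun n =>
          V {p | p ∈ S ∧ p + h ∈ S ∧ (p + h).Prime} n / V S n) atTop (𝓝 0)) →
        Law κ S := by
    intro κ h1 h2 S hS hD hP
    have ht := two h1 h2
    have hc0 : 0 < c := by
      unfold c
      have := log_pos'
      positivity
    have hk2 := Pool.Agent.H32x.PL.kap_pos (b := 2) le_rfl
    unfold Law
    filter_upwards [ht.pd hS hD hP] with θ hθ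
    rw [kp_eq] at hθ
    have hE : (fun j : Fin 2 => Pool.Agent.H32x.AB.EZ 2 κ (AA j) S θ) = E κ S θ := by
      funext j
      rw [E_eq]
    rw [hE] at hθ
    have hel : ∀ i, Pool.Agent.H32x.AB.el (Pool.Agent.H32x.AB.UU (E κ S θ)) i = e κ S θ i := fun i => rfl
    have hgap : ∀ i, gap κ S θ i = c / Pool.Agent.N176.OW.kap 2 *
        (Pool.Agent.H32x.PL.vv 2 S (e κ S θ (i + 1)) - Pool.Agent.H32x.PL.vv 2 S (e κ S θ i)) := by
      intro i
      unfold gap Pool.Agent.H32x.PL.vv
      rw [V_eq, V_eq]
      field_simp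
    have hm0 : 0 < c / Pool.Agent.N176.OW.kap 2 := by positivity
    refine ⟨hθ.UUinf, fun m w u v hu huv => ?_, fun m w => ?_⟩
    · have h3 := hθ.nth_law m (Pool.Agent.H32x.AB.exF 0 w)
        (u := fun j => Pool.Agent.H32x.AB.exF 0 u j / (c / Pool.Agent.N176.OW.kap 2))
        (v := fun j => Pool.Agent.H32x.AB.exF 0 v j / (c / Pool.Agent.N176.OW.kap 2))
        (fun j => div_nonneg (by
          unfold Pool.Agent.H32x.AB.exF
          split_ifs
          · exact hu _
          · exact le_rfl) hm0.le)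
        (fun j => div_le_div_of_nonneg_right (by
          unfold Pool.Agent.H32x.AB.exF
          split_ifs
          · exact huv _
          · exact le_rfl) hm0.le)
      have e1 : ∏ j ∈ Finset.range m, (Real.exp (-(2 * (c / Pool.Agent.N176.OW.kap 2) *
          (Pool.Agent.H32x.AB.exF 0 u j / (c / Pool.Agent.N176.OW.kap 2)))) -
          Real.exp (-(2 * (c / Pool.Agent.N176.OW.kap 2) *
          (Pool.Agent.H32x.AB.exF 0 v j / (c / Pool.Agent.N176.OW.kap 2))))) =
          ∏ j, (Real.exp (-(2 * u j)) - Real.exp (-(2 * v j))) := by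
        rw [← Fin.prod_univ_eq_prod_range (fun j => (Real.exp (-(2 * (c / Pool.Agent.N176.OW.kap 2) *
          (Pool.Agent.H32x.AB.exF 0 u j / (c / Pool.Agent.N176.OW.kap 2)))) -
          Real.exp (-(2 * (c / Pool.Agent.N176.OW.kap 2) *
          (Pool.Agent.H32x.AB.exF 0 v j / (c / Pool.Agent.N176.OW.kap 2))))))]
        refine Finset.prod_congr rfl fun j _ => ?_
        rw [Pool.Agent.H32x.AB.exF_apply, Pool.Agent.H32x.AB.exF_apply]
        congr 3
        · field_simp
        · field_simp
      rw [e1] at h3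
      refine h3.congr fun n => ?_
      congr 3
      ext i
      simp only [Set.mem_ofPred_eq, hel]
      refine and_congr_right fun _ => and_congr ?_ ?_
      · constructor
        · intro h4 j
          have h5 := h4 j (by have := j.2; omega)
          rwa [Pool.Agent.H32x.AB.exF_apply] at h5
        · intro h4 j hj
          have h5 := h4 ⟨j, by omega⟩
          have h6 := Pool.Agent.H32x.AB.exF_apply 0 w ⟨j, by omega⟩
          simp only at h5 h6
          rw [h6]
          exact h5
      · constructor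
        · intro h4 j
          have h5 := h4 j j.2
          rw [Pool.Agent.H32x.AB.exF_apply, Pool.Agent.H32x.AB.exF_apply, div_lt_iff₀ hm0, le_div_iff₀ hm0] at h5
          rw [hgap]
          exact ⟨by linarith [h5.1], by linarith [h5.2]⟩
        · intro h4 j hj
          have h5 := h4 ⟨j, hj⟩
          have h6 := Pool.Agent.H32x.AB.exF_apply 0 u ⟨j, hj⟩
          have h7 := Pool.Agent.H32x.AB.exF_apply 0 v ⟨j, hj⟩
          simp only at h5 h6 h7
          rw [hgap] at h5
          rw [h6, h7, div_lt_iff₀ hm0, le_div_iff₀ hm0]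
          exact ⟨by linarith [h5.1], by linarith [h5.2]⟩
    · have h3 := hθ.nth_normal m (Pool.Agent.H32x.AB.exF 0 w)
      refine h3.congr fun n => ?_
      congr 3
      ext i
      simp only [Set.mem_ofPred_eq, hel]
      refine and_congr_right fun _ => ?_
      constructor
      · intro h4 j
        have h5 := h4 j (by have := j.2; omega)
        rwa [Pool.Agent.H32x.AB.exF_apply] at h5
      · intro h4 j hj
        have h5 := h4 ⟨j, by omega⟩
        have h6 := Pool.Agent.H32x.AB.exF_apply 0 w ⟨j, by omega⟩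
        simp only at h5 h6
        rw [h6]
        exact h5
  refine ⟨fun n => ?_, fun n hn => ?_, fun κ p hp hp2 => ?_, fun κ h1 h2 => ⟨hmain κ h1 h2, ?_⟩⟩
  · rw [X_eq, Y_eq]
    exact Pool.Agent.H39x.LP.Pell.real_eq n
  · rw [X_eq, Y_eq]
    exact ⟨Pool.Agent.H39x.LP.Pell.pell hn, Pool.Agent.H39x.LP.Pell.prime_of_X hn⟩
  · have e : ∀ A : ℕ → ℕ, N A κ 0 p = A p := by
      intro A
      unfold N
      rw [zero_mul, Int.floor_zero, add_zero]
      exact Int.toNat_natCast _
    rw [e, e, X_eq, Y_eq]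
    exact ⟨rough_self (Pool.Agent.H39x.LP.Pell.X_pos p).ne' fun l hl hd =>
        Pool.Agent.H39x.LP.Pell.lt_of_dvd hp hp2 hl (Or.inl hd),
      rough_self (Pool.Agent.H39x.LP.Pell.Y_pos hp.pos).ne' fun l hl hd =>
        Pool.Agent.H39x.LP.Pell.lt_of_dvd hp hp2 hl (Or.inr hd)⟩
  · intro ε hε0 hε1 hε hεs
    obtain ⟨g1, g2, g3⟩ := Pool.Agent.H32x.PL.thin_ok hε0 hε1 hε hεs
    exact hmain κ h1 h2 _ g1 g2 g3

end Pool.Agent.Results.MP_927e73_nt.GapsAndTypes
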