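import Mathlib
import Pool.Agent.H39x.LP.Pell
import Pool.Agent.H32x.PL.Ex
import Pool.Agent.H32x.AB.Race

set_option autoImplicit false

/-!
# Pell pairs with a random tail: the two members fluctuate like independent Brownian motions

The solutions of `x ^ 2 - 2 y ^ 2 = -1` are the pairs `(X n, Y n)`, `X n + Y n √2 = (1 + √2) ^ n`, `n`
odd, and `X n` is prime only if `n` is prime. For real `θ` and a real number `κ` with
`(1 + √2) ^ 0.5834 < 2 ^ κ < 1 + √2` we add the same integer `⌊θ 2 ^ ⌊κ p⌋⌋` to `X p` and to `Y p`, so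
that a positive proportion of the leading digits does not change. Let `M X n` and `M Y n` be the numbers
of the primes `p ≤ n` in a set `S` for which (the `p`-rough part of) the first, the second member is
prime, `V n` the sum of `log p / p` over the primes `p ≤ n` in `S` and `c = e ^ γ / log (1 + √2)`.

The heuristic behind the two questions says that the members are prime independently of each other with
the probabilities `c log p / p`. It predicts that `M X n` and `M Y n` are asymptotically normal with mean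
and variance `c V n`, and that they are asymptotically independent although they come from the same
`θ`; more precisely that they are, on the scale `c V`, two independent Brownian motions. We prove this
for `θ` with the uniform distribution on any set of finite positive measure, for every set `S` of infinite
weight whose dyadic pieces have weights tending to zero and in which the pairs `p`, `p + h` have weight
zero relative to the weight of `S`, for every `h`. Consequently for almost every `θ` the lead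
`M X n - M Y n` exceeds every multiple of `√(V n)`, in both directions, infinitely often, and it takes
every integer value infinitely often.

The `p`-rough parts of `X p` and `Y p` are `X p` and `Y p`: at `θ = 0` we have the two questions.
-/

namespace Pool.Agent.Results.MP_927e73_nt.IndependentFluctuations

open Filter Topology MeasureTheory ProbabilityTheory

/-- The pairs `(X n, Y n)` with `X n + Y n √2 = (1 + √2) ^ n`. -/
def XY : ℕ → ℕ × ℕ
  | 0 => (1, 0)
  | n + 1 => ((XY n).1 + 2 * (XY n).2, (XY n).1 + (XY n).2)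

/-- The first member of the pair. -/
def X (n : ℕ) : ℕ := (XY n).1

/-- The second member of the pair. -/
def Y (n : ℕ) : ℕ := (XY n).2

/-- The product, with multiplicity, of the prime factors of `m` that are larger than `p`. -/
def roughPart (p m : ℕ) : ℕ := (m.primeFactorsList.filter (fun r => p < r)).prod

/-- The integer `A p + ⌊θ 2 ^ ⌊κ p⌋⌋` (zero if this is negative). -/
noncomputable def N (A : ℕ → ℕ) (κ θ : ℝ) (p : ℕ) : ℕ := ((A p : ℤ) + ⌊θ * 2 ^ ⌊κ * p⌋₊⌋).toNat

/-- The primes `p` for which the `p`-rough part of `N A κ θ p` is prime. -/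
def E (A : ℕ → ℕ) (κ θ : ℝ) : Set ℕ := {p | p.Prime ∧ (roughPart p (N A κ θ p)).Prime}

open Classical in
/-- The number of the `p ≤ n` in `E A κ θ` and in `S`. -/
noncomputable def M (A : ℕ → ℕ) (κ : ℝ) (S : Set ℕ) (θ : ℝ) (n : ℕ) : ℕ :=
  ((Finset.range (n + 1)).filter (fun p => p ∈ E A κ θ ∧ p ∈ S)).card

open Classical in
/-- The sum of `log p / p` over the primes `p ≤ n` in the set `S`. -/
noncomputable def V (S : Set ℕ) (n : ℕ) : ℝ :=
  ∑ p ∈ (Finset.range (n + 1)).filter (fun p => p.Prime ∧ p ∈ S), Real.log p / p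

/-- The constant of the law, `e ^ γ / log (1 + √2)`. -/
noncomputable def c : ℝ := Real.exp Real.eulerMascheroniConstant / Real.log (1 + √2)

/-- The standard normal distribution function, with values in `[0, ∞]`. -/
noncomputable def Φ (y : ℝ) : ENNReal := gaussianReal 0 1 (Set.Iic y)

/-- The number of the elements of `E A κ θ` in `S` with `u < c * V S q ≤ w`. -/
noncomputable def W (A : ℕ → ℕ) (κ : ℝ) (S : Set ℕ) (θ u w : ℝ) : ℕ :=
  {q | q ∈ E A κ θ ∧ q ∈ S ∧ u < c * V S q ∧ c * V S q ≤ w}.ncard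

/-- The two counting functions are asymptotically normal, with mean and variance `c * V S n`, and
asymptotically independent, on every measurable set `G` of finite measure. -/
def NormalLaw (κ : ℝ) (S : Set ℕ) : Prop :=
  ∀ G : Set ℝ, MeasurableSet G → volume G ≠ ⊤ → ∀ y z : ℝ,
    Tendsto (fun n : ℕ => volume {θ ∈ G |
      (M X κ S θ n : ℝ) ≤ c * V S n + y * √(c * V S n) ∧
      (M Y κ S θ n : ℝ) ≤ c * V S n + z * √(c * V S n)}) atTop (𝓝 (volume G * (Φ y * Φ z)))

/-- The numbers of the good exponents of the two sequences in disjoint windows, on the scale `c * V S`, are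
all asymptotically normal and independent: on every measurable set `G` of finite measure. -/
def BrownianLaw (κ : ℝ) (S : Set ℕ) : Prop :=
  ∀ G : Set ℝ, MeasurableSet G → volume G ≠ ⊤ →
    ∀ (r : ℕ) (t : ℕ → ℝ) (y z : Fin r → ℝ), 0 ≤ t 0 → (∀ i < r, t i < t (i + 1)) →
    Tendsto (fun x : ℝ => volume {θ ∈ G | ∀ i : Fin r,
      (W X κ S θ (t i * x) (t (i + 1) * x) : ℝ) ≤
        (t (i + 1) - t i) * x + y i * √((t (i + 1) - t i) * x) ∧
      (W Y κ S θ (t i * x) (t (i + 1) * x) : ℝ) ≤
        (t (i + 1) - t i) * x + z i * √((t (i + 1) - t i) * x)}) atTop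
      (𝓝 (volume G * ∏ i, (Φ (y i) * Φ (z i))))

/-- The race: for almost every `θ` each of the two sequences leads, infinitely often, by more than any given
multiple of `√(V S n)`, and the lead takes every integer value infinitely often. -/
def Race (κ : ℝ) (S : Set ℕ) : Prop :=
  ∀ᵐ θ : ℝ, (∀ s : ℝ,
    (∃ᶠ n : ℕ in atTop, s * √(V S n) < (M X κ S θ n : ℝ) - M Y κ S θ n) ∧
    (∃ᶠ n : ℕ in atTop, s * √(V S n) < (M Y κ S θ n : ℝ) - M X κ S θ n)) ∧
    ∀ m : ℤ, ∃ᶠ n : ℕ in atTop, (M X κ S θ n : ℤ) - M Y κ S θ n = m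

lemma XY_eq : XY = Pool.Agent.H39x.LP.Pell.XY := by
  funext n
  induction n with
  | zero => rfl
  | succ n ih =>
    show ((XY n).1 + 2 * (XY n).2, (XY n).1 + (XY n).2) = _
    rw [ih]
    rfl

lemma X_eq : X = Pool.Agent.H39x.LP.Pell.X := by
  funext n
  unfold X
  rw [XY_eq]
  rfl

lemma Y_eq : Y = Pool.Agent.H39x.LP.Pell.Y := by
  funext n
  unfold Y
  rw [XY_eq]
  rfl

lemma N_eq (A : ℕ → ℕ) (κ θ : ℝ) : N A κ θ = Pool.Agent.H39x.LP.sq 2 κ (fun p => (A p : ℤ)) θ := by
  funext p
  unfold N Pool.Agent.H39x.LP.sq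
  norm_num

lemma rough_self {p m : ℕ} (hm : m ≠ 0) (h : ∀ l : ℕ, l.Prime → l ∣ m → p < l) :
    roughPart p m = m := by
  unfold roughPart
  rw [List.filter_eq_self.2, Nat.prod_primeFactorsList hm]
  intro r hr
  have := h r (Nat.prime_of_mem_primeFactorsList hr) (Nat.dvd_of_mem_primeFactorsList hr)
  simpa using this

/-- the two sequences -/
def AA (j p : ℕ) : ℤ := if j = 0 then X p else Y p

lemma log_pos' : 0 < Real.log (1 + √2) := by
  have hs : 0 < √2 := by positivity
  exact Real.log_pos (by linarith)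

lemma two {κ : ℝ} (h1 : 0.5834 * Real.log (1 + √2) < κ * Real.log 2)
    (h2 : κ * Real.log 2 < Real.log (1 + √2)) :
    Pool.Agent.H32x.AB.TwoZ 2 κ (Real.log (1 + √2)) AA := by
  have hs : 0 < √2 := by positivity
  have hexp : ∀ p : ℕ, Real.exp (Real.log (1 + √2) * p) = (1 + √2) ^ p := by
    intro p
    rw [mul_comm, Real.exp_nat_mul, Real.exp_log (by linarith)]
  refine ⟨le_rfl, log_pos', by push_cast; exact h1, by push_cast; exact h2, fun j _ => ?_, ?_⟩
  · refine ⟨1 / 4, 1, by norm_num, Eventually.of_forall fun p hp => ?_⟩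
    rw [hexp, one_mul]
    unfold AA
    split_ifs
    · rw [X_eq]
      have := Pool.Agent.H39x.LP.Pell.le_X p
      have := Pool.Agent.H39x.LP.Pell.X_le p
      push_cast
      constructor <;> assumption
    · rw [Y_eq]
      have := Pool.Agent.H39x.LP.Pell.le_Y hp.pos
      have := Pool.Agent.H39x.LP.Pell.Y_le p
      push_cast
      constructor <;> assumption
  · refine Eventually.of_forall fun p hp h => ?_
    have h3 : Y p < X p := by
      rw [X_eq, Y_eq]
      exact Pool.Agent.H39x.LP.Pell.Y_lt_X hp.two_le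
    have h4 : (X p : ℤ) = (Y p : ℤ) := h
    omega

lemma E_eq (A : ℕ → ℕ) (κ θ : ℝ) (q : ℕ) : q ∈ E A κ θ ↔ (q.Prime ∧
    (Pool.Agent.H305R2.roughPart q (Pool.Agent.H39x.LP.sq 2 κ (fun p => (A p : ℤ)) θ q)).Prime) := by
  rw [← N_eq]
  exact Iff.rfl

lemma AA0 : AA 0 = fun p => (X p : ℤ) := by funext p; unfold AA; rw [if_pos rfl]
lemma AA1 : AA 1 = fun p => (Y p : ℤ) := by funext p; unfold AA; rw [if_neg one_ne_zero]

lemma M_eq (A : ℕ → ℕ) (κ : ℝ) (S : Set ℕ) (θ : ℝ) (n : ℕ) :
    M A κ S θ n = Pool.Agent.H32x.AB.Mn 2 κ (fun p => (A p : ℤ)) S θ n := by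
  classical
  unfold M Pool.Agent.H32x.AB.Mn
  congr 1
  ext q
  simp only [Finset.mem_filter, E_eq]

lemma kp_eq : Pool.Agent.H32x.AB.kp (Real.log (1 + √2)) = c := rfl

lemma V_eq (S : Set ℕ) (n : ℕ) : Pool.Agent.N176.OW.VS S n = V S n := rfl

lemma W_eq (A : ℕ → ℕ) (κ : ℝ) (S : Set ℕ) (θ u w : ℝ) : W A κ S θ u w =
    ({q | (q.Prime ∧ (Pool.Agent.H305R2.roughPart q
      (Pool.Agent.H39x.LP.sq 2 κ (fun p => (A p : ℤ)) θ q)).Prime) ∧ q ∈ S ∧
      u < c * V S q ∧ c * V S q ≤ w}).ncard := by
  unfold W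
  simp only [E_eq]

/-- a sequence of integers with bounded steps that is unbounded in both directions takes all values -/
lemma ivt {D : ℕ → ℤ} (hD : ∀ᶠ n in atTop, D (n + 1) ≤ D n + 1) {m : ℤ} (h1 : ∃ᶠ n in atTop, D n < m)
    (h2 : ∃ᶠ n in atTop, m < D n) : ∃ᶠ n in atTop, D n = m := by
  classical
  rw [Filter.frequently_atTop]
  intro N
  obtain ⟨N1, hN1⟩ := eventually_atTop.1 hD
  obtain ⟨n1, hn1, h3⟩ := Filter.frequently_atTop.1 h1 (max N N1)
  have hex : ∃ n, n1 ≤ n ∧ m ≤ D n := by
    obtain ⟨n2, hn2, h4⟩ := Filter.frequently_atTop.1 h2 n1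
    exact ⟨n2, hn2, h4.le⟩
  set n2 := Nat.find hex with hn2
  obtain ⟨h4, h5⟩ := Nat.find_spec hex
  rw [← hn2] at h4 h5
  have h6 : n2 ≠ n1 := fun h => by rw [h] at h5; omega
  have h7 : ¬ (n1 ≤ n2 - 1 ∧ m ≤ D (n2 - 1)) := Nat.find_min hex (by omega)
  have h8 : D (n2 - 1) < m := by
    by_contra hcon
    exact h7 ⟨by omega, by omega⟩
  have h9 := hN1 (n2 - 1) (by omega)
  have e : n2 - 1 + 1 = n2 := by omega
  rw [e] at h9
  exact ⟨n2, by omega, by omega⟩

lemma M_succ (A : ℕ → ℕ) (κ : ℝ) (S : Set ℕ) (θ : ℝ) (n : ℕ) :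
    (n + 1 ∈ E A κ θ ∧ M A κ S θ (n + 1) ≤ M A κ S θ n + 1 ∨ M A κ S θ (n + 1) = M A κ S θ n) ∧
      M A κ S θ n ≤ M A κ S θ (n + 1) := by
  classical
  unfold M
  rw [Finset.range_add_one (n := n + 1), Finset.filter_insert]
  split_ifs with h
  · have hn : n + 1 ∉ (Finset.range (n + 1)).filter (fun p => p ∈ E A κ θ ∧ p ∈ S) := by simp
    rw [Finset.card_insert_of_notMem hn]
    exact ⟨Or.inl ⟨h.1, le_rfl⟩, Nat.le_succ _⟩
  · exact ⟨Or.inr rfl, le_rfl⟩

/-- The pairs for odd `n` are solutions, prime values of `X` at odd arguments have prime arguments, and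
the `p`-rough parts of `X p` and `Y p` are `X p` and `Y p`. The three laws hold for every set `S` of
infinite weight whose dyadic pieces have weights tending to zero and whose pairs at every fixed distance
have relative weight zero; in particular for all primes in the windows `(2 ^ i, (1 + ε i) 2 ^ i]`, if
`ε i → 0` and `∑ ε i = ∞`. -/
theorem result :
    (∀ n : ℕ, (X n : ℝ) + Y n * √2 = (1 + √2) ^ n) ∧
    (∀ n : ℕ, Odd n → X n ^ 2 + 1 = 2 * Y n ^ 2 ∧ ((X n).Prime → n.Prime)) ∧
    (∀ (κ : ℝ) (p : ℕ), p.Prime → p ≠ 2 →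
      roughPart p (N X κ 0 p) = X p ∧ roughPart p (N Y κ 0 p) = Y p) ∧
    ∀ κ : ℝ, 0.5834 * Real.log (1 + √2) < κ * Real.log 2 → κ * Real.log 2 < Real.log (1 + √2) →
      (∀ S : Set ℕ, Tendsto (fun n => V S n) atTop atTop →
        Tendsto (fun n : ℕ => V S (2 * n) - V S n) atTop (𝓝 0) →
        (∀ h : ℕ, 1 ≤ h → Tendsto (fun n =>
          V {p | p ∈ S ∧ p + h ∈ S ∧ (p + h).Prime} n / V S n) atTop (𝓝 0)) →
        NormalLaw κ S ∧ BrownianLaw κ S ∧ Race κ S) ∧
      ∀ ε : ℕ → ℝ, (∀ i, 0 ≤ ε i) → (∀ i, ε i ≤ 1) → Tendsto ε atTop (𝓝 0) → ¬ Summable ε →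
        NormalLaw κ {p | ∃ i : ℕ, 2 ^ i < p ∧ (p : ℝ) ≤ 2 ^ i * (1 + ε i)} ∧
        BrownianLaw κ {p | ∃ i : ℕ, 2 ^ i < p ∧ (p : ℝ) ≤ 2 ^ i * (1 + ε i)} ∧
        Race κ {p | ∃ i : ℕ, 2 ^ i < p ∧ (p : ℝ) ≤ 2 ^ i * (1 + ε i)} := by
  classical
  have hmain : ∀ κ : ℝ, 0.5834 * Real.log (1 + √2) < κ * Real.log 2 →
      κ * Real.log 2 < Real.log (1 + √2) →
      ∀ S : Set ℕ, Tendsto (fun n => V S n) atTop atTop →
        Tendsto (fun n : ℕ => V S (2 * n) - V S n) atTop (𝓝 0) →
        (∀ h : ℕ, 1 ≤ h → Tendsto (fun n =>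
          V {p | p ∈ S ∧ p + h ∈ S ∧ (p + h).Prime} n / V S n) atTop (𝓝 0)) →
        NormalLaw κ S ∧ BrownianLaw κ S ∧ Race κ S := by
    intro κ h1 h2 S hS hD hP
    have ht := two h1 h2
    have hN : NormalLaw κ S := by
      intro G hG hfin y z
      have h := ht.cltM hS hD hP y z G hG hfin
      rw [AA0, AA1] at h
      simp only [← M_eq, kp_eq] at h
      exact h
    refine ⟨hN, ?_, ?_⟩
    · intro G hG hfin r t y z ht0 htt
      have h := ht.clt hS hD hP ht0 htt (fun w => if w.2 = 0 then y w.1 else z w.1) G hG hfin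
      have e1 : ∏ w : Fin r × Fin 2, gaussianReal 0 1 (Set.Iic (if w.2 = 0 then y w.1 else z w.1)) =
          ∏ i, (Φ (y i) * Φ (z i)) := by
        rw [Fintype.prod_prod_type]
        refine Finset.prod_congr rfl fun i _ => ?_
        rw [Fin.prod_univ_two]
        rfl
      rw [e1] at h
      refine h.congr fun x => ?_
      congr 1
      ext θ
      simp only [Set.mem_ofPred_eq]
      refine and_congr_right fun _ => ?_
      rw [Prod.forall]
      refine forall_congr' fun i => ?_
      rw [Fin.forall_fin_two]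
      simp only [W_eq]
      have e0 : AA ((0 : Fin 2) : ℕ) = fun p => (X p : ℤ) := AA0
      have e2 : AA ((1 : Fin 2) : ℕ) = fun p => (Y p : ℤ) := AA1
      rw [e0, e2]
      exact Iff.rfl
    · have hrace := ht.race hS hD hP
      have hj := Pool.Agent.H39x.LP.joint_digits (b := 2) le_rfl log_pos' ht.hκ ht.hκ1
        (show (0 : ℝ) < 1 / 4 by norm_num) (A := fun p => (X p : ℤ)) (B := fun p => (Y p : ℤ)) (C := 1)
        (by
          obtain ⟨_, _, _, _⟩ := ht.hA 0 (by norm_num)
          have hs : 0 < √2 := by positivity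
          refine Eventually.of_forall fun p hp => ?_
          rw [mul_comm (Real.log (1 + √2)), Real.exp_nat_mul, Real.exp_log (by linarith), one_mul, X_eq]
          have := Pool.Agent.H39x.LP.Pell.le_X p
          have := Pool.Agent.H39x.LP.Pell.X_le p
          push_cast
          constructor <;> assumption)
        (by
          have hs : 0 < √2 := by positivity
          refine Eventually.of_forall fun p hp => ?_
          rw [mul_comm (Real.log (1 + √2)), Real.exp_nat_mul, Real.exp_log (by linarith), one_mul, Y_eq]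
          have := Pool.Agent.H39x.LP.Pell.le_Y hp.pos
          have := Pool.Agent.H39x.LP.Pell.Y_le p
          push_cast
          constructor <;> assumption)
        (by
          have := ht.ne
          rw [AA0, AA1] at this
          exact this)
      unfold Race
      filter_upwards [hrace, hj] with θ hθ hfinite
      rw [AA0, AA1] at hθ
      simp only [← M_eq, kp_eq, V_eq] at hθ
      have hc0 : 0 < c := by
        unfold c
        have := log_pos'
        positivity
      have hlead : ∀ s : ℝ,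
          (∃ᶠ n : ℕ in atTop, s * √(V S n) < (M X κ S θ n : ℝ) - M Y κ S θ n) ∧
          (∃ᶠ n : ℕ in atTop, s * √(V S n) < (M Y κ S θ n : ℝ) - M X κ S θ n) := by
        intro s
        obtain ⟨g1, g2⟩ := hθ (s / √c)
        have hsc : ∀ n, s / √c * √(c * V S n) = s * √(V S n) := by
          intro n
          rw [Real.sqrt_mul hc0.le]
          have : √c ≠ 0 := (Real.sqrt_pos.2 hc0).ne'
          field_simp
        refine ⟨g1.mono ?_, g2.mono ?_⟩
        · rintro n ⟨g3, g4⟩
          rw [hsc] at g3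
          linarith
        · rintro n ⟨g3, g4⟩
          rw [hsc] at g3
          linarith
      refine ⟨hlead, fun m => ?_⟩
      -- the steps
      have hst : ∀ᶠ n in atTop, ¬ (n + 1 ∈ E X κ θ ∧ n + 1 ∈ E Y κ θ) := by
        obtain ⟨B, hB⟩ := hfinite.bddAbove
        filter_upwards [eventually_ge_atTop B] with n hn h3
        have h4 : n + 1 ∈ {p : ℕ | p.Prime ∧
            (Pool.Agent.H305R2.roughPart p (Pool.Agent.H39x.LP.sq 2 κ (fun p => (X p : ℤ)) θ p)).Prime ∧
            (Pool.Agent.H305R2.roughPart p (Pool.Agent.H39x.LP.sq 2 κ (fun p => (Y p : ℤ)) θ p)).Prime} := by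
          obtain ⟨h5, h6⟩ := h3
          rw [E_eq] at h5 h6
          exact ⟨h5.1, h5.2, h6.2⟩
        have := hB h4
        omega
      have hup : ∀ᶠ n in atTop, ((M X κ S θ (n + 1) : ℤ) - M Y κ S θ (n + 1)) ≤
          ((M X κ S θ n : ℤ) - M Y κ S θ n) + 1 := by
        filter_upwards [hst] with n hn
        obtain ⟨g1, g2⟩ := M_succ X κ S θ n
        obtain ⟨g3, g4⟩ := M_succ Y κ S θ n
        rcases g1 with g1 | g1 <;> rcases g3 with g3 | g3 <;> omega
      have hVt : ∀ n, 0 ≤ √(V S n) := fun n => Real.sqrt_nonneg _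
      have hbig : ∀ᶠ n in atTop, (|m| : ℝ) < 1 * √(V S n) := by
        have := (Real.tendsto_sqrt_atTop.comp hS).eventually_gt_atTop (|m| : ℝ)
        filter_upwards [this] with n hn
        rw [one_mul]
        exact hn
      refine ivt (D := fun n => (M X κ S θ n : ℤ) - M Y κ S θ n) hup ?_ ?_
      · refine ((hlead 1).2.and_eventually hbig).mono ?_
        rintro n ⟨g1, g2⟩
        have g3 := g2.trans g1
        have g4 := neg_abs_le (m : ℝ)
        have g5 : ((M X κ S θ n : ℝ) - M Y κ S θ n) < m := by linarith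
        exact_mod_cast g5
      · refine ((hlead 1).1.and_eventually hbig).mono ?_
        rintro n ⟨g1, g2⟩
        have g3 := g2.trans g1
        have g4 := le_abs_self (m : ℝ)
        have g5 : (m : ℝ) < ((M X κ S θ n : ℝ) - M Y κ S θ n) := by linarith
        exact_mod_cast g5
  refine ⟨fun n => ?_, fun n hn => ?_, fun κ p hp hp2 => ?_, fun κ h1 h2 => ⟨hmain κ h1 h2, ?_⟩⟩
  · rw [X_eq, Y_eq]
    exact Pool.Agent.H39x.LP.Pell.real_eq n
  · rw [X_eq, Y_eq]
    exact ⟨Pool.Agent.H39x.LP.Pell.pell hn, Pool.Agent.H39x.LP.Pell.prime_of_X hn⟩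
  · have e : ∀ A : ℕ → ℕ, N A κ 0 p = A p := by
      intro A
      unfold N
      rw [zero_mul, Int.floor_zero, add_zero]
      exact Int.toNat_natCast _
    rw [e, e, X_eq, Y_eq]
    exact ⟨rough_self (Pool.Agent.H39x.LP.Pell.X_pos p).ne' fun l hl hd =>
        Pool.Agent.H39x.LP.Pell.lt_of_dvd hp hp2 hl (Or.inl hd),
      rough_self (Pool.Agent.H39x.LP.Pell.Y_pos hp.pos).ne' fun l hl hd =>
        Pool.Agent.H39x.LP.Pell.lt_of_dvd hp hp2 hl (Or.inr hd)⟩
  · intro ε hε0 hε1 hε hεs
    obtain ⟨g1, g2, g3⟩ := Pool.Agent.H32x.PL.thin_ok hε0 hε1 hε hεs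
    exact hmain κ h1 h2 _ g1 g2 g3

end Pool.Agent.Results.MP_927e73_nt.IndependentFluctuations
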