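import Mathlib
import Pool.Agent.H39x.LP.Joint2
import Pool.Agent.H39x.LP.Pell

set_option autoImplicit false

/-!
# Pell pairs with a random tail: each member is prime infinitely often, both only finitely often

The solutions of `x ^ 2 - 2 y ^ 2 = -1` are the pairs `(X n, Y n)`, `X n + Y n √2 = (1 + √2) ^ n`, `n`
odd, and `X n` is prime only if `n` is prime. For real `θ` and a real number `κ` with
`(1 + √2) ^ 0.5834 < 2 ^ κ < 1 + √2` we add the same integer `⌊θ 2 ^ ⌊κ p⌋⌋` to `X p` and to `Y p`, so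
that a positive proportion of the leading digits does not change. For almost every `θ`

* the number of the primes `p ≤ n` for which (the `p`-rough part of) the first member is prime is
  `(e ^ γ / log (1 + √2)) log n + O((log n) ^ (1/2) (log log n) ^ (5/2))`, and the same is true of the
  second member; similar laws hold for the `p` in an arbitrary set of primes;
* only finitely many `p` are such that (the rough parts of) both members are prime.

The `p`-rough parts of `X p` and `Y p` are `X p` and `Y p`: at `θ = 0` we have the two questions.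

The proof needs the prime number theorem in intervals of length `x ^ 0.5834`.
-/

namespace Pool.Agent.Results.MP_927e73_nt.PairsWithRandomTails

open Filter Topology MeasureTheory Asymptotics

/-- The pairs `(X n, Y n)` with `X n + Y n √2 = (1 + √2) ^ n`. -/
def XY : ℕ → ℕ × ℕ
  | 0 => (1, 0)
  | n + 1 => ((XY n).1 + 2 * (XY n).2, (XY n).1 + (XY n).2)

/-- The first member of the pair. -/
def X (n : ℕ) : ℕ := (XY n).1

/-- The second member of the pair. -/
def Y (n : ℕ) : ℕ := (XY n).2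

/-- The product, with multiplicity, of the prime factors of `m` that are larger than `p`. -/
def roughPart (p m : ℕ) : ℕ := (m.primeFactorsList.filter (fun r => p < r)).prod

/-- The integer `A p + ⌊θ 2 ^ ⌊κ p⌋⌋` (zero if this is negative). -/
noncomputable def N (A : ℕ → ℕ) (κ θ : ℝ) (p : ℕ) : ℕ := ((A p : ℤ) + ⌊θ * 2 ^ ⌊κ * p⌋₊⌋).toNat

/-- The primes `p` for which the `p`-rough part of `N A κ θ p` is prime. -/
def E (A : ℕ → ℕ) (κ θ : ℝ) : Set ℕ := {p | p.Prime ∧ (roughPart p (N A κ θ p)).Prime}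

open Classical in
/-- The number of the `p ≤ n` in the set `S`. -/
noncomputable def count (S : Set ℕ) (n : ℕ) : ℕ := ((Finset.range (n + 1)).filter (fun p => p ∈ S)).card

open Classical in
/-- The sum of `log p / p` over the primes `p ≤ n` in the set `S`. -/
noncomputable def V (S : Set ℕ) (n : ℕ) : ℝ :=
  ∑ p ∈ (Finset.range (n + 1)).filter (fun p => p.Prime ∧ p ∈ S), Real.log p / p

/-- The law: the number of the elements of `T` up to `n` is
`(e ^ γ / log (1 + √2)) log n + O((log n) ^ (1/2) (log log n) ^ (5/2))`. -/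
def Law (T : Set ℕ) : Prop := (fun n : ℕ => (count T n : ℝ) -
    Real.exp Real.eulerMascheroniConstant / Real.log (1 + √2) * Real.log n) =O[atTop]
  (fun n : ℕ => Real.sqrt (Real.log n) * (Real.log (Real.log n)) ^ ((5 : ℝ) / 2))

/-- The law for the elements of `T` in `S`: they are infinite in number if and only if `V S` is
unbounded, and then the number of those up to `n` is
`(e ^ γ / log (1 + √2)) V + O((V L) ^ (1/2) (log (V L)) ^ 2)`, `V = V S n`, `L = log log n`. -/
def LawS (T S : Set ℕ) : Prop := ((T ∩ S).Infinite ↔ Tendsto (V S) atTop atTop) ∧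
  (Tendsto (V S) atTop atTop → (fun n : ℕ => (count (T ∩ S) n : ℝ) -
      Real.exp Real.eulerMascheroniConstant / Real.log (1 + √2) * V S n) =O[atTop]
    (fun n : ℕ => Real.sqrt (V S n * Real.log (Real.log n)) *
      (Real.log (V S n * Real.log (Real.log n))) ^ 2))

lemma XY_eq : XY = Pool.Agent.H39x.LP.Pell.XY := by
  funext n
  induction n with
  | zero => rfl
  | succ n ih =>
    show ((XY n).1 + 2 * (XY n).2, (XY n).1 + (XY n).2) = _
    rw [ih]
    rfl

lemma X_eq : X = Pool.Agent.H39x.LP.Pell.X := by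
  funext n
  unfold X
  rw [XY_eq]
  rfl

lemma Y_eq : Y = Pool.Agent.H39x.LP.Pell.Y := by
  funext n
  unfold Y
  rw [XY_eq]
  rfl

lemma V_eq (S : Set ℕ) : V S = Pool.Agent.TH888.R.VS S := by
  classical
  funext n
  unfold V Pool.Agent.TH888.R.VS
  rw [Finset.sum_filter]
  refine Finset.sum_congr rfl fun p _ => ?_
  by_cases h : p.Prime ∧ p ∈ S
  · rw [if_pos h, if_pos ⟨h.2, h.1⟩]
    rfl
  · rw [if_neg h, if_neg fun h1 => h ⟨h1.2, h1.1⟩]

lemma N_eq (A : ℕ → ℕ) (κ θ : ℝ) : N A κ θ = Pool.Agent.H39x.LP.sq 2 κ (fun p => (A p : ℤ)) θ := by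
  funext p
  unfold N Pool.Agent.H39x.LP.sq
  norm_num

lemma count_eq (A : ℕ → ℕ) (κ θ : ℝ) (S : Set ℕ) (n : ℕ) : count (E A κ θ ∩ S) n =
    Pool.Agent.TH888.R.cS S (Pool.Agent.H39x.LP.sq 2 κ (fun p => (A p : ℤ)) θ) n := by
  classical
  unfold count Pool.Agent.TH888.R.cS
  congr 1
  ext p
  simp only [Finset.mem_filter, Finset.mem_range]
  refine and_congr_right fun _ => ?_
  rw [← N_eq]
  constructor
  · rintro ⟨⟨h1, h2⟩, h3⟩
    exact ⟨h1, h3, h2⟩
  · rintro ⟨h1, h2, h3⟩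
    exact ⟨⟨h1, h3⟩, h2⟩

lemma rough_self {p m : ℕ} (hm : m ≠ 0) (h : ∀ l : ℕ, l.Prime → l ∣ m → p < l) :
    roughPart p m = m := by
  unfold roughPart
  rw [List.filter_eq_self.2, Nat.prod_primeFactorsList hm]
  intro r hr
  have := h r (Nat.prime_of_mem_primeFactorsList hr) (Nat.dvd_of_mem_primeFactorsList hr)
  simpa using this

/-- the law for one of the two sequences -/
lemma law {A : ℕ → ℕ} {κ : ℝ} (h1 : 0.5834 * Real.log (1 + √2) < κ * Real.log 2)
    (h2 : κ * Real.log 2 < Real.log (1 + √2))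
    (hA : ∀ p : ℕ, 0 < p → 1 / 4 * (1 + √2) ^ p ≤ (A p : ℝ) ∧ (A p : ℝ) ≤ (1 + √2) ^ p) :
    (∀ᵐ θ : ℝ, Law (E A κ θ)) ∧ ∀ S : Set ℕ, ∀ᵐ θ : ℝ, LawS (E A κ θ) S := by
  have hs : 0 < √2 := by positivity
  have hl : 0 < Real.log (1 + √2) := Real.log_pos (by linarith)
  have hexp : ∀ p : ℕ, Real.exp (Real.log (1 + √2) * p) = (1 + √2) ^ p := by
    intro p
    rw [mul_comm, Real.exp_nat_mul, Real.exp_log (by linarith)]
  have hA' : ∀ᶠ p : ℕ in atTop, p.Prime → 1 / 4 * Real.exp (Real.log (1 + √2) * p) ≤ ((A p : ℤ) : ℝ) ∧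
      ((A p : ℤ) : ℝ) ≤ 1 * Real.exp (Real.log (1 + √2) * p) :=
    Eventually.of_forall fun p hp => by
      rw [hexp, one_mul]
      have := hA p hp.pos
      simpa using this
  have g1 : 0.5834 * Real.log (1 + √2) < κ * Real.log ((2 : ℕ) : ℝ) := by push_cast; exact h1
  have g2 : κ * Real.log ((2 : ℕ) : ℝ) < Real.log (1 + √2) := by push_cast; exact h2
  refine ⟨?_, fun S => ?_⟩
  · filter_upwards [Pool.Agent.H39x.LP.main_all le_rfl hl g1 g2 (by norm_num) hA'] with θ hθ
    unfold Law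
    have e : ∀ n, count (E A κ θ) n = Pool.Agent.TH888.R.cS Set.univ
        (Pool.Agent.H39x.LP.sq 2 κ (fun p => (A p : ℤ)) θ) n := by
      intro n
      rw [← count_eq, Set.inter_univ]
    simp only [e]
    exact hθ
  · filter_upwards [Pool.Agent.H39x.LP.main_set le_rfl hl g1 g2 (by norm_num) hA' S] with θ hθ
    unfold LawS
    rw [V_eq]
    simp only [count_eq]
    have e : E A κ θ ∩ S = {p : ℕ | p.Prime ∧ p ∈ S ∧ (Pool.Agent.H305R2.roughPart p
        (Pool.Agent.H39x.LP.sq 2 κ (fun p => (A p : ℤ)) θ p)).Prime} := by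
      ext p
      rw [← N_eq]
      constructor
      · rintro ⟨⟨h1, h2⟩, h3⟩
        exact ⟨h1, h3, h2⟩
      · rintro ⟨h1, h2, h3⟩
        exact ⟨⟨h1, h3⟩, h2⟩
    rw [e]
    exact hθ

/-- The pairs for odd `n` are solutions, prime values of `X` at odd arguments have prime arguments,
and the `p`-rough parts of `X p` and `Y p` are `X p` and `Y p`. For almost every `θ` both sequences
obey the law and have only finitely many primes `p` in common; for every set `S` and almost every `θ`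
both sequences obey the law for `S`. -/
theorem result :
    (∀ n : ℕ, (X n : ℝ) + Y n * √2 = (1 + √2) ^ n) ∧
    (∀ n : ℕ, Odd n → X n ^ 2 + 1 = 2 * Y n ^ 2 ∧ ((X n).Prime → n.Prime)) ∧
    (∀ (κ : ℝ) (p : ℕ), p.Prime → p ≠ 2 →
      roughPart p (N X κ 0 p) = X p ∧ roughPart p (N Y κ 0 p) = Y p) ∧
    ∀ κ : ℝ, 0.5834 * Real.log (1 + √2) < κ * Real.log 2 → κ * Real.log 2 < Real.log (1 + √2) →
      (∀ᵐ θ : ℝ, Law (E X κ θ) ∧ Law (E Y κ θ) ∧ (E X κ θ ∩ E Y κ θ).Finite) ∧
      ∀ S : Set ℕ, ∀ᵐ θ : ℝ, LawS (E X κ θ) S ∧ LawS (E Y κ θ) S := by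
  refine ⟨fun n => ?_, fun n hn => ?_, fun κ p hp hp2 => ?_, fun κ h1 h2 => ?_⟩
  · rw [X_eq, Y_eq]
    exact Pool.Agent.H39x.LP.Pell.real_eq n
  · rw [X_eq, Y_eq]
    exact ⟨Pool.Agent.H39x.LP.Pell.pell hn, Pool.Agent.H39x.LP.Pell.prime_of_X hn⟩
  · have e : ∀ A : ℕ → ℕ, N A κ 0 p = A p := by
      intro A
      unfold N
      rw [zero_mul, Int.floor_zero, add_zero]
      exact Int.toNat_natCast _
    rw [e, e, X_eq, Y_eq]
    exact ⟨rough_self (Pool.Agent.H39x.LP.Pell.X_pos p).ne' fun l hl hd =>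
        Pool.Agent.H39x.LP.Pell.lt_of_dvd hp hp2 hl (Or.inl hd),
      rough_self (Pool.Agent.H39x.LP.Pell.Y_pos hp.pos).ne' fun l hl hd =>
        Pool.Agent.H39x.LP.Pell.lt_of_dvd hp hp2 hl (Or.inr hd)⟩
  have hX : ∀ p : ℕ, 0 < p → 1 / 4 * (1 + √2) ^ p ≤ (X p : ℝ) ∧ (X p : ℝ) ≤ (1 + √2) ^ p := by
    intro p _
    rw [X_eq]
    exact ⟨Pool.Agent.H39x.LP.Pell.le_X p, Pool.Agent.H39x.LP.Pell.X_le p⟩
  have hY : ∀ p : ℕ, 0 < p → 1 / 4 * (1 + √2) ^ p ≤ (Y p : ℝ) ∧ (Y p : ℝ) ≤ (1 + √2) ^ p := by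
    intro p hp
    rw [Y_eq]
    exact ⟨Pool.Agent.H39x.LP.Pell.le_Y hp, Pool.Agent.H39x.LP.Pell.Y_le p⟩
  have lX := law h1 h2 hX
  have lY := law h1 h2 hY
  refine ⟨?_, fun S => ?_⟩
  · have hs : 0 < √2 := by positivity
    have hl : 0 < Real.log (1 + √2) := Real.log_pos (by linarith)
    have hexp : ∀ p : ℕ, Real.exp (Real.log (1 + √2) * p) = (1 + √2) ^ p := by
      intro p
      rw [mul_comm, Real.exp_nat_mul, Real.exp_log (by linarith)]
    have hA' : ∀ A : ℕ → ℕ, (∀ p : ℕ, 0 < p → 1 / 4 * (1 + √2) ^ p ≤ (A p : ℝ) ∧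
        (A p : ℝ) ≤ (1 + √2) ^ p) →
        ∀ᶠ p : ℕ in atTop, p.Prime → 1 / 4 * Real.exp (Real.log (1 + √2) * p) ≤ ((A p : ℤ) : ℝ) ∧
        ((A p : ℤ) : ℝ) ≤ 1 * Real.exp (Real.log (1 + √2) * p) := fun A hA =>
      Eventually.of_forall fun p hp => by
        rw [hexp, one_mul]
        have := hA p hp.pos
        simpa using this
    have g1 : 0.5834 * Real.log (1 + √2) < κ * Real.log ((2 : ℕ) : ℝ) := by push_cast; exact h1
    have g2 : κ * Real.log ((2 : ℕ) : ℝ) < Real.log (1 + √2) := by push_cast; exact h2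
    have hj := Pool.Agent.H39x.LP.joint_digits le_rfl hl g1 g2 (by norm_num) (hA' X hX) (hA' Y hY)
      (Eventually.of_forall fun p hp h => by
        have h3 : Y p < X p := by
          rw [X_eq, Y_eq]
          exact Pool.Agent.H39x.LP.Pell.Y_lt_X hp.two_le
        have h4 : (X p : ℤ) = (Y p : ℤ) := h
        omega)
    filter_upwards [lX.1, lY.1, hj] with θ t1 t2 t3
    refine ⟨t1, t2, t3.subset ?_⟩
    rintro p ⟨⟨k1, k2⟩, k3, k4⟩
    rw [N_eq] at k2 k4
    exact ⟨k1, k2, k4⟩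
  · filter_upwards [lX.2 S, lY.2 S] with θ t1 t2
    exact ⟨t1, t2⟩

end Pool.Agent.Results.MP_927e73_nt.PairsWithRandomTails
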